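import Pool.Agent.W973.IP.Defs

/-!
Project IP (subtask IP-ASY): a polynomial relation excludes very different scales.
-/

set_option autoImplicit false

namespace Pool.Agent.W55.IP

open Pool.Agent.W973.IP MvPolynomial

theorem asy : S_ASY := by
  intro S N hS hdeg
  have hne : S.support.Nonempty := MvPolynomial.support_nonempty.2 hS
  obtain ⟨m1, hm1, hmin1⟩ := Finset.exists_min_image S.support (fun m => m 1) hne
  have hne2 : (S.support.filter (fun m => m 1 = m1 1)).Nonempty :=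
    ⟨m1, Finset.mem_filter.2 ⟨hm1, rfl⟩⟩
  obtain ⟨m0, hm0, hmin0⟩ := Finset.exists_min_image _ (fun m => m 0) hne2
  rw [Finset.mem_filter] at hm0
  obtain ⟨hm0s, hm01⟩ := hm0
  have hκ : S.coeff m0 ≠ 0 := MvPolynomial.mem_support_iff.1 hm0s
  obtain ⟨K, hK⟩ : ∃ K : ℝ, K = ∑ m ∈ S.support, |S.coeff m| := ⟨_, rfl⟩
  have hK0 : 0 ≤ K := by rw [hK]; exact Finset.sum_nonneg (fun m _ => abs_nonneg _)
  have hκ0 : 0 < |S.coeff m0| := abs_pos.2 hκ
  have hi0 : m0 0 < N := lt_of_le_of_lt (MvPolynomial.monomial_le_degreeOf 0 hm0s) hdeg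
  refine ⟨min 1 (|S.coeff m0| / (K + 1)), by positivity, ?_⟩
  intro c e hc hcε he heN h0
  have hc1 : c < 1 := lt_of_lt_of_le hcε (min_le_left _ _)
  have hc2 : c < |S.coeff m0| / (K + 1) := lt_of_lt_of_le hcε (min_le_right _ _)
  have he1 : e ≤ 1 := heN.trans (pow_le_one₀ hc.le hc1.le)
  have hexp : ∑ m ∈ S.support, S.coeff m * (c ^ m 0 * e ^ m 1) = 0 := by
    rw [← h0, MvPolynomial.aeval_def, MvPolynomial.eval₂_eq']
    apply Finset.sum_congr rfl
    intro m _
    rw [Fin.prod_univ_two]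
    rfl
  rw [← Finset.add_sum_erase _ _ hm0s] at hexp
  have hb : ∀ m ∈ S.support.erase m0, c ^ m 0 * e ^ m 1 ≤ c * (c ^ m0 0 * e ^ m0 1) := by
    intro m hm
    rw [Finset.mem_erase] at hm
    obtain ⟨hmne, hms⟩ := hm
    have h1 := hmin1 m hms
    rcases Nat.lt_or_ge (m1 1) (m 1) with h2 | h2
    · have h3 : e ^ m 1 ≤ e ^ (m1 1 + 1) := pow_le_pow_of_le_one he.le he1 h2
      have h4 : c ^ m 0 ≤ 1 := pow_le_one₀ hc.le hc1.le
      have h5 : e ≤ c ^ (m0 0 + 1) := heN.trans (pow_le_pow_of_le_one hc.le hc1.le hi0)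
      calc c ^ m 0 * e ^ m 1 ≤ 1 * e ^ (m1 1 + 1) :=
            mul_le_mul h4 h3 (pow_nonneg he.le _) zero_le_one
        _ = e ^ m1 1 * e := by rw [one_mul, pow_succ]
        _ ≤ e ^ m1 1 * c ^ (m0 0 + 1) := mul_le_mul_of_nonneg_left h5 (pow_nonneg he.le _)
        _ = c * (c ^ m0 0 * e ^ m0 1) := by rw [hm01, pow_succ]; ring
    · have h2' : m 1 = m1 1 := le_antisymm h2 h1
      have h3 := hmin0 m (Finset.mem_filter.2 ⟨hms, h2'⟩)
      have h4 : m0 0 + 1 ≤ m 0 := by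
        rcases Nat.lt_or_ge (m0 0) (m 0) with h | h
        · exact h
        · exfalso
          apply hmne
          ext i
          fin_cases i
          · exact le_antisymm h h3
          · show m 1 = m0 1
            rw [h2', hm01]
      have h5 : c ^ m 0 ≤ c ^ (m0 0 + 1) := pow_le_pow_of_le_one hc.le hc1.le h4
      calc c ^ m 0 * e ^ m 1 ≤ c ^ (m0 0 + 1) * e ^ m 1 :=
            mul_le_mul_of_nonneg_right h5 (pow_nonneg he.le _)
        _ = c * (c ^ m0 0 * e ^ m0 1) := by rw [h2', hm01, pow_succ]; ring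
  obtain ⟨M, hM⟩ : ∃ M : ℝ, M = c ^ m0 0 * e ^ m0 1 := ⟨_, rfl⟩
  have hM0 : 0 < M := by rw [hM]; positivity
  have h6 : |S.coeff m0| * M ≤ c * K * M := by
    have h7 : S.coeff m0 * M = -∑ m ∈ S.support.erase m0, S.coeff m * (c ^ m 0 * e ^ m 1) := by
      rw [hM]; linarith
    calc |S.coeff m0| * M = |S.coeff m0 * M| := by rw [abs_mul, abs_of_pos hM0]
      _ = |∑ m ∈ S.support.erase m0, S.coeff m * (c ^ m 0 * e ^ m 1)| := by rw [h7, abs_neg]
      _ ≤ ∑ m ∈ S.support.erase m0, |S.coeff m * (c ^ m 0 * e ^ m 1)| :=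
        Finset.abs_sum_le_sum_abs _ _
      _ ≤ ∑ m ∈ S.support.erase m0, |S.coeff m| * (c * M) := by
        apply Finset.sum_le_sum
        intro m hm
        have h8 : 0 ≤ c ^ m 0 * e ^ m 1 := by positivity
        rw [abs_mul, abs_of_nonneg h8, hM]
        exact mul_le_mul_of_nonneg_left (hb m hm) (abs_nonneg _)
      _ ≤ ∑ m ∈ S.support, |S.coeff m| * (c * M) := by
        apply Finset.sum_le_sum_of_subset_of_nonneg (Finset.erase_subset _ _)
        intro m _ _
        positivity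
      _ = c * K * M := by rw [← Finset.sum_mul, ← hK]; ring
  have h9 : |S.coeff m0| ≤ c * K := le_of_mul_le_mul_right h6 hM0
  rw [lt_div_iff₀ (by positivity)] at hc2
  nlinarith

end Pool.Agent.W55.IP
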